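import Pool.Agent.Helper38.PC.FF2
import Pool.Agent.Helper30.TK2.Prog

/-!
# Post-critically finite endomorphisms over function fields: the Dynamical Mordell-Lang property
-/

set_option autoImplicit false

namespace Pool.Agent.Helper38.PC

open MvPolynomial
open Pool.Agent.Helper16 (Place IsFunctionField)
open Pool.Agent.Helper36 (step iter iter_zero iter_succ iter_succ' iter_add iter_map)
open Pool.Agent.Helper38.TQ
open Pool.Agent.Helper30.TKN
open Pool.Agent.Helper38.TQK (orbit_complex)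

variable {ν : ℕ}

/-- Curves in projective space: orbits outside the post-critical hypersurface. -/
theorem dml_curve_unbounded {k K : Type} [Field k] [IsAlgClosed k] [Field K] [Algebra k K]
    [Algebra k ℂ] [Algebra K ℂ] [IsScalarTower k K ℂ] (hK : IsFunctionField k K) {d : ℕ}
    {F : Fin (ν + 1) → MvPolynomial (Fin (ν + 1)) K}
    (hF : IsEndo d fun i => map (algebraMap K ℂ) (F i)) {e E : ℕ}
    {g q c : MvPolynomial (Fin (ν + 1)) K} (h : Data F e E g q c)
    {x : Fin (ν + 1) → K} (hx : x ≠ 0) (hunb : ∀ B : ℤ, ∃ n, B < ht k (iter F x n))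
    (hg : ∀ n, eval (iter F x n) g ≠ 0) (u : ℂ) (hu : u ≠ 0)
    {S : Set (MvPolynomial (Fin (ν + 1)) ℂ)} (hS : ∀ g ∈ S, ∃ e, g.IsHomogeneous e)
    (hcur : CurveSet S) :
    ∃ T : Finset (ℕ × ℕ), {n : ℕ | ∀ g ∈ S, eval ((fun (x : Fin (ν + 1) → ℂ) (i : Fin (ν + 1)) =>
        eval x (map (algebraMap K ℂ) (F i)))^[n] (fun i => u * algebraMap K ℂ (x i))) g = 0} =
      {n : ℕ | ∃ q ∈ T, ∃ m : ℕ, n = q.1 * m + q.2} := by
  classical
  have hchar : CharZero k := (algebraMap k ℂ).charZero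
  have hhom : ∀ i, (F i).IsHomogeneous d := fun i => homog_of_endo hF i
  by_cases hne : NoEtale k d F x
  · refine finite_progressions ?_
    by_contra hinf
    obtain ⟨U, hU, hRU⟩ := exists_free hinf
    refine no_curve_pcf hK hF h hx hunb hg hne hU (hcur _ _ _ ?_)
    have hRU' : ∀ᶠ n in (U : Filter ℕ), ∀ g ∈ S,
        eval ((fun (x : Fin (ν + 1) → ℂ) (i : Fin (ν + 1)) =>
          eval x (map (algebraMap K ℂ) (F i)))^[n] (fun i => u * algebraMap K ℂ (x i))) g = 0 := hRU
    filter_upwards [hRU'] with n hn g hg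
    obtain ⟨e, he⟩ := hS g hg
    have h5 := hn g hg
    rw [orbit_complex hF, eval_smul_hom he, mul_eq_zero] at h5
    exact h5.resolve_left (pow_ne_zero _ (pow_ne_zero _ hu))
  · unfold NoEtale at hne
    push Not at hne
    obtain ⟨b, f, z, hf, hz, n, N, hN, hper, hdet⟩ := hne
    exact etale_dml hK hhom x hx b f hf z hz n N hN hper hdet u hu S hS

/-- A proper closed subset of a projective space of dimension at most two has dimension at most
one. -/
theorem krullDim_le_two {N : ℕ} (hN : N ≤ 2) (S : Set (MvPolynomial (Fin (N + 1)) ℂ))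
    {g : MvPolynomial (Fin (N + 1)) ℂ} (hg : g ∈ S) (hg0 : g ≠ 0) :
    ringKrullDim (MvPolynomial (Fin (N + 1)) ℂ ⧸ Ideal.span S) ≤ 2 := by
  have h1 : ringKrullDim (MvPolynomial (Fin (N + 1)) ℂ ⧸ Ideal.span {g}) + 1 ≤
      ringKrullDim (MvPolynomial (Fin (N + 1)) ℂ) :=
    ringKrullDim_quotient_succ_le_of_nonZeroDivisor (mem_nonZeroDivisors_of_ne_zero hg0)
  rw [MvPolynomial.ringKrullDim_of_isNoetherianRing, ringKrullDim_eq_zero_of_field, zero_add,
    Nat.card_fin] at h1
  have hle : Ideal.span {g} ≤ Ideal.span S := Ideal.span_mono (by simpa using hg)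
  have h2 : ringKrullDim (MvPolynomial (Fin (N + 1)) ℂ ⧸ Ideal.span S) ≤
      ringKrullDim (MvPolynomial (Fin (N + 1)) ℂ ⧸ Ideal.span {g}) :=
    ringKrullDim_le_of_surjective (Ideal.Quotient.factor hle)
      (Ideal.Quotient.factor_surjective hle)
  refine h2.trans ?_
  have h3 : ((N + 1 : ℕ) : WithBot ℕ∞) ≤ 2 + 1 := by
    have : (N + 1 : ℕ) ≤ 3 := by omega
    calc ((N + 1 : ℕ) : WithBot ℕ∞) ≤ ((3 : ℕ) : WithBot ℕ∞) := by exact_mod_cast this
      _ = 2 + 1 := by norm_num
  have h4 := h1.trans h3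
  generalize ringKrullDim (MvPolynomial (Fin (N + 1)) ℂ ⧸ Ideal.span {g}) = D at h4
  induction D using WithBot.recBotCoe with
  | bot => exact bot_le
  | coe D =>
    have h5 : D + 1 ≤ 2 + 1 := WithBot.coe_le_coe.1 h4
    have h6 : D ≤ 2 := (ENat.add_le_add_iff_right ENat.one_ne_top).1 h5
    exact WithBot.coe_le_coe.2 h6

/-- **The plane.** Points of unbounded height over a function field. -/
theorem dml_plane_unbounded {k K : Type} [Field k] [IsAlgClosed k] [Field K] [Algebra k K]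
    [Algebra k ℂ] [Algebra K ℂ] [IsScalarTower k K ℂ] (hK : IsFunctionField k K) {d : ℕ}
    {F : Fin 3 → MvPolynomial (Fin 3) K}
    (hF : IsEndo (ν := 2) d fun i => map (algebraMap K ℂ) (F i)) {e E : ℕ}
    {g q c : MvPolynomial (Fin 3) K} (h : Data (ν := 2) F e E g q c)
    {x : Fin 3 → K} (hx : x ≠ 0) (hunb : ∀ B : ℤ, ∃ n, B < ht (ν := 2) k (iter F x n))
    (u : ℂ) (hu : u ≠ 0) :
    Pool.Agent.Helper38.Sym.DMLgen (fun i => map (algebraMap K ℂ) (F i))
      (fun i => u * algebraMap K ℂ (x i)) := by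
  classical
  by_cases hg : ∀ n, eval (iter F x n) g ≠ 0
  · intro S hS
    by_cases hall : ∀ g ∈ S, g = 0
    · refine ⟨{(1, 0)}, ?_⟩
      ext n
      simp only [Set.mem_ofPred_eq, Finset.mem_singleton, exists_eq_left]
      exact ⟨fun _ => ⟨n, by ring⟩, fun _ g hg => by rw [hall g hg, map_zero]⟩
    · push Not at hall
      obtain ⟨g₁, hg₁, hg₁0⟩ := hall
      exact dml_curve_unbounded (ν := 2) hK hF h hx hunb hg u hu hS
        (curveSet_of_krull (ν := 2) hS (krullDim_le_two le_rfl S hg₁ hg₁0))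
  · push Not at hg
    obtain ⟨i, hi⟩ := hg
    have hF' : Pool.Agent.Helper30.TP.IsEndo d fun i => map (algebraMap K ℂ) (F i) :=
      ⟨hF.two_le, hF.hom, hF.nz⟩
    have hdist := distinct_of_unbounded (ν := 2) hK hF hx hunb
    refine Pool.Agent.Helper30.TK2.dml_of_progression hF' hx
      (fun n m hnm => hdist n m hnm) h.hom h.ne (n₀ := i) (m := 1) one_pos ?_ u hu
    intro a
    rw [one_mul]
    exact h.eval_zero (ν := 2) x i hi a

end Pool.Agent.Helper38.PC
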