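import Pool.Agent.Helper38.TQK.Final

/-!
# Post-critically finite endomorphisms, algebraic form
-/

set_option autoImplicit false

namespace Pool.Agent.Helper38.PC

open MvPolynomial
open Pool.Agent.Helper16 (Place IsFunctionField)
open Pool.Agent.Helper36 (step iter iter_zero iter_succ iter_succ' iter_add iter_map)
open Pool.Agent.Helper38.TQ
open Pool.Agent.Helper30.TKN

variable {ν : ℕ}

/-- The post-critical hypersurface is contained in the hypersurface `g = 0`: `g` divides `g ∘ F`
with quotient `q`, and the Jacobian determinant divides a power of `q`. -/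
structure Data {k : Type} [Field k] (F : Fin (ν + 1) → MvPolynomial (Fin (ν + 1)) k) (e E : ℕ)
    (g q c : MvPolynomial (Fin (ν + 1)) k) : Prop where
  hom : g.IsHomogeneous e
  ne : g ≠ 0
  comp : aeval F g = g * q
  dvd : jf F * c = q ^ E
  homq : ∃ m, q.IsHomogeneous m
  homc : ∃ m, c.IsHomogeneous m

/-- Post-critically finite maps, algebraic form. -/
def IsPCF {k : Type} [Field k] (F : Fin (ν + 1) → MvPolynomial (Fin (ν + 1)) k) : Prop :=
  ∃ (e E : ℕ) (g q c : MvPolynomial (Fin (ν + 1)) k), Data F e E g q c

theorem Data.eval_step {k : Type} [Field k] {F : Fin (ν + 1) → MvPolynomial (Fin (ν + 1)) k}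
    {e E : ℕ} {g q c : MvPolynomial (Fin (ν + 1)) k} (h : Data F e E g q c)
    (z : Fin (ν + 1) → k) : eval (step F z) g = eval z g * eval z q := by
  have h1 := congrArg (eval z) h.comp
  rw [map_mul] at h1
  rw [← h1]
  have h2 : ∀ g : MvPolynomial (Fin (ν + 1)) k, eval (step F z) g = eval z (aeval F g) := by
    intro g
    induction g using MvPolynomial.induction_on with
    | C a => simp
    | add p q hp hq => simp only [map_add, hp, hq]
    | mul_X p i hp =>
      rw [map_mul, map_mul, map_mul, hp, aeval_X, eval_X]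
      rfl
  exact h2 g

/-- The hypersurface `g = 0` is forward invariant. -/
theorem Data.eval_zero {k : Type} [Field k] {F : Fin (ν + 1) → MvPolynomial (Fin (ν + 1)) k}
    {e E : ℕ} {g q c : MvPolynomial (Fin (ν + 1)) k} (h : Data F e E g q c)
    (z : Fin (ν + 1) → k) (i : ℕ) (hi : eval (iter F z i) g = 0) (a : ℕ) :
    eval (iter F z (i + a)) g = 0 := by
  induction a with
  | zero => exact hi
  | succ a ih => rw [← add_assoc, iter_succ, h.eval_step, ih, zero_mul]

/-- If `g` does not vanish at a later point then no point before it is critical. -/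
theorem Data.noncritical {k : Type} [Field k] {F : Fin (ν + 1) → MvPolynomial (Fin (ν + 1)) k}
    {e E : ℕ} {g q c : MvPolynomial (Fin (ν + 1)) k} (h : Data F e E g q c)
    (z : Fin (ν + 1) → k) (n : ℕ) (hn : eval (iter F z n) g ≠ 0) :
    ∀ j < n, (jac F (iter F z j)).det ≠ 0 := by
  intro j hj
  have h1 : ∀ l ≤ n, eval (iter F z l) g ≠ 0 := by
    intro l hl h0
    obtain ⟨a, rfl⟩ := Nat.exists_eq_add_of_le hl
    exact hn (h.eval_zero z l h0 a)
  have h2 := h1 (j + 1) hj
  rw [iter_succ, h.eval_step] at h2
  have h3 : eval (iter F z j) q ≠ 0 := right_ne_zero_of_mul h2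
  have h4 := congrArg (eval (iter F z j)) h.dvd
  rw [map_mul, map_pow] at h4
  rw [← eval_jf]
  intro h5
  rw [h5, zero_mul] at h4
  exact pow_ne_zero _ h3 h4.symm

end Pool.Agent.Helper38.PC
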