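import Pool.Agent.Helper30.TK2.Prog

/-!
# Finite unions of progressions are closed under intersection
-/

set_option autoImplicit false

namespace Pool.Agent.Helper38.PC

/-- A finite union of progressions. -/
def FU (R : Set ℕ) : Prop :=
  ∃ T : Finset (ℕ × ℕ), R = {n : ℕ | ∃ p ∈ T, ∃ m : ℕ, n = p.1 * m + p.2}

/-- Eventually periodic sets. -/
def EP (R : Set ℕ) : Prop := ∃ n₁ M : ℕ, 0 < M ∧ ∀ n, n₁ ≤ n → (n ∈ R ↔ n + M ∈ R)

theorem ep_mul {R : Set ℕ} {n₁ M : ℕ} (h : ∀ n, n₁ ≤ n → (n ∈ R ↔ n + M ∈ R)) (c : ℕ) :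
    ∀ n, n₁ ≤ n → (n ∈ R ↔ n + M * c ∈ R) := by
  induction c with
  | zero => intro n _; rw [mul_zero, add_zero]
  | succ c ih =>
    intro n hn
    rw [ih n hn, h (n + M * c) (by omega)]
    rw [show n + M * (c + 1) = n + M * c + M by ring]

theorem EP.common {R S : Set ℕ} (hR : EP R) (hS : EP S) :
    ∃ n₁ M : ℕ, 0 < M ∧ ∀ n, n₁ ≤ n → ((n ∈ R ↔ n + M ∈ R) ∧ (n ∈ S ↔ n + M ∈ S)) := by
  obtain ⟨n₁, M, hM, h⟩ := hR
  obtain ⟨n₂, N, hN, h'⟩ := hS
  refine ⟨max n₁ n₂, M * N, Nat.mul_pos hM hN, fun n hn => ⟨?_, ?_⟩⟩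
  · exact ep_mul h N n (le_trans (le_max_left _ _) hn)
  · rw [mul_comm M N]
    exact ep_mul h' M n (le_trans (le_max_right _ _) hn)

theorem EP.union {R S : Set ℕ} (hR : EP R) (hS : EP S) : EP (R ∪ S) := by
  obtain ⟨n₁, M, hM, h⟩ := hR.common hS
  exact ⟨n₁, M, hM, fun n hn => or_congr (h n hn).1 (h n hn).2⟩

theorem EP.inter {R S : Set ℕ} (hR : EP R) (hS : EP S) : EP (R ∩ S) := by
  obtain ⟨n₁, M, hM, h⟩ := hR.common hS
  exact ⟨n₁, M, hM, fun n hn => and_congr (h n hn).1 (h n hn).2⟩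

theorem ep_single (a b : ℕ) : EP {n | ∃ m : ℕ, n = a * m + b} := by
  rcases Nat.eq_zero_or_pos a with rfl | ha
  · refine ⟨b + 1, 1, one_pos, fun n hn => ?_⟩
    simp only [Set.mem_ofPred_eq, zero_mul, zero_add, exists_const]
    omega
  · refine ⟨b, a, ha, fun n hn => ⟨?_, ?_⟩⟩
    · rintro ⟨m, rfl⟩
      exact ⟨m + 1, by ring⟩
    · rintro ⟨m, hm⟩
      rcases m with _ | m
      · exfalso
        rw [mul_zero] at hm
        omega
      · exact ⟨m, by
          have : a * (m + 1) = a * m + a := by ring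
          omega⟩

theorem FU.ep {R : Set ℕ} (hR : FU R) : EP R := by
  classical
  obtain ⟨T, rfl⟩ := hR
  induction T using Finset.induction_on with
  | empty =>
    refine ⟨0, 1, one_pos, fun n _ => ?_⟩
    simp
  | insert p T _ ih =>
    have h : {n : ℕ | ∃ q ∈ insert p T, ∃ m : ℕ, n = q.1 * m + q.2} =
        {n | ∃ m : ℕ, n = p.1 * m + p.2} ∪ {n : ℕ | ∃ q ∈ T, ∃ m : ℕ, n = q.1 * m + q.2} := by
      ext n
      simp only [Set.mem_ofPred_eq, Set.mem_union, Finset.mem_insert]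
      constructor
      · rintro ⟨q, rfl | hq, h⟩
        · exact Or.inl h
        · exact Or.inr ⟨q, hq, h⟩
      · rintro (h | ⟨q, hq, h⟩)
        · exact ⟨p, Or.inl rfl, h⟩
        · exact ⟨q, Or.inr hq, h⟩
    rw [h]
    exact (ep_single _ _).union ih

theorem EP.fu {R : Set ℕ} (hR : EP R) : FU R := by
  obtain ⟨n₁, M, hM, h⟩ := hR
  refine Pool.Agent.Helper30.TK2.exists_progressions (n₁ := n₁) hM fun s _ => ?_
  by_cases hs : n₁ + s ∈ R
  · left
    intro l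
    have h1 := (ep_mul h l (n₁ + s) (by omega)).1 hs
    rwa [show n₁ + M * l + s = n₁ + s + M * l by ring]
  · right
    have h2 : {l | n₁ + M * l + s ∈ R} = ∅ := by
      apply Set.eq_empty_of_forall_notMem
      intro l hl
      apply hs
      rw [ep_mul h l (n₁ + s) (by omega)]
      have h3 : n₁ + M * l + s ∈ R := hl
      rwa [show n₁ + M * l + s = n₁ + s + M * l by ring] at h3
    rw [h2]
    exact Set.finite_empty

theorem fu_iff {R : Set ℕ} : FU R ↔ EP R := ⟨FU.ep, EP.fu⟩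

theorem FU.inter {R S : Set ℕ} (hR : FU R) (hS : FU S) : FU (R ∩ S) :=
  (hR.ep.inter hS.ep).fu

theorem FU.union {R S : Set ℕ} (hR : FU R) (hS : FU S) : FU (R ∪ S) :=
  (hR.ep.union hS.ep).fu

theorem fu_univ : FU Set.univ := EP.fu ⟨0, 1, one_pos, fun _ _ => by simp⟩

end Pool.Agent.Helper38.PC
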