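import Pool.Agent.Helper38.PC.Defs

/-!
# Post-critically finite endomorphisms over function fields
-/

set_option autoImplicit false

namespace Pool.Agent.Helper38.PC

open MvPolynomial
open Pool.Agent.Helper16 (Place IsFunctionField)
open Pool.Agent.Helper36 (step iter iter_zero iter_succ iter_succ' iter_add iter_map)
open Pool.Agent.Helper38.TQ
open Pool.Agent.Helper30.TKN

variable {ν : ℕ}

section

variable {k K : Type} [Field k] [Field K] [Algebra k K]

/-- Composition of polynomials specialises. -/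
theorem redP_aeval {b : Place k K} {F : Fin (ν + 1) → MvPolynomial (Fin (ν + 1)) K}
    {f : Fin (ν + 1) → MvPolynomial (Fin (ν + 1)) k} (hf : ∀ i, RedP b (F i) (f i))
    {P : MvPolynomial (Fin (ν + 1)) K} {p : MvPolynomial (Fin (ν + 1)) k} (hP : RedP b P p) :
    RedP b (aeval F P) (aeval f p) := by
  classical
  -- write `P` as the lift of `p` plus a small polynomial
  have h1 : ∀ p : MvPolynomial (Fin (ν + 1)) k,
      RedP b (aeval F (map (algebraMap k K) p)) (aeval f p) := by
    intro p
    induction p using MvPolynomial.induction_on with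
    | C a =>
      have h := redP_map b (C a : MvPolynomial (Fin (ν + 1)) k)
      rw [map_C] at h
      rw [map_C, aeval_C, aeval_C, algebraMap_eq, algebraMap_eq]
      exact h
    | add p q hp hq => simp only [map_add]; exact hp.add hq
    | mul_X p i hp =>
      simp only [map_mul, map_X, aeval_X]
      exact hp.mul (hf i)
  have h2 : ∀ Q : MvPolynomial (Fin (ν + 1)) K, RedP b Q 0 → RedP b (aeval F Q) 0 := by
    intro Q hQ
    have h3 : aeval F Q = ∑ m ∈ Q.support, C (Q.coeff m) * ∏ i ∈ m.support, F i ^ m i := by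
      rw [aeval_def, eval₂_eq]
      rfl
    rw [h3]
    have h4 : (0 : MvPolynomial (Fin (ν + 1)) k) = ∑ m ∈ Q.support, 0 * ∏ i ∈ m.support,
        f i ^ m i := by simp
    rw [h4]
    refine RedP.sum _ fun m _ => RedP.mul ?_ (RedP.prod _ fun i _ => (hf i).pow _)
    intro n
    rw [coeff_C, coeff_zero, map_zero, sub_zero]
    split_ifs
    · have := hQ m
      rwa [coeff_zero, map_zero, sub_zero] at this
    · rw [map_zero]; exact zero_lt_one
  have h5 : P = map (algebraMap k K) p + (P - map (algebraMap k K) p) := by ring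
  have h6 : RedP b (P - map (algebraMap k K) p) 0 := by
    intro m
    rw [coeff_zero, map_zero, sub_zero, coeff_sub, coeff_map]
    exact hP m
  rw [h5, map_add]
  have h7 := (h1 p).add (h2 _ h6)
  rwa [add_zero] at h7

end

/-- The data specialise at almost all places. -/
theorem Data.red {k K : Type} [Field k] [IsAlgClosed k] [Field K] [Algebra k K]
    (hK : IsFunctionField k K) {F : Fin (ν + 1) → MvPolynomial (Fin (ν + 1)) K} {e E : ℕ}
    {g q c : MvPolynomial (Fin (ν + 1)) K} (h : Data F e E g q c) :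
    ∃ B : Set (Place k K), B.Finite ∧ ∀ b ∉ B, ∀ (d : ℕ)
      (f : Fin (ν + 1) → MvPolynomial (Fin (ν + 1)) k), GoodRed d b F f →
        ∃ g' q' c' : MvPolynomial (Fin (ν + 1)) k, RedP b g g' ∧ Data f e E g' q' c' := by
  obtain ⟨mq, hq⟩ := h.homq
  obtain ⟨mc, hc⟩ := h.homc
  refine ⟨{b | ¬ ∀ m, b.val (g.coeff m) ≤ 1} ∪ {b | ¬ ∀ m, b.val (q.coeff m) ≤ 1} ∪
    {b | ¬ ∀ m, b.val (c.coeff m) ≤ 1} ∪
      Function.support (fun b : Place k K => WithZero.log (gs b g)),
    (((Good2_fin hK g).union (Good2_fin hK q)).union (Good2_fin hK c)).union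
      (formHeight_support hK h.ne), ?_⟩
  intro b hb d f hf
  rw [Set.mem_union, Set.mem_union, Set.mem_union, not_or, not_or, not_or] at hb
  obtain ⟨⟨⟨hg1, hq1⟩, hc1⟩, hgs⟩ := hb
  have hg1' : ∀ m, b.val (g.coeff m) ≤ 1 := not_not.1 hg1
  have hq1' : ∀ m, b.val (q.coeff m) ≤ 1 := not_not.1 hq1
  have hc1' : ∀ m, b.val (c.coeff m) ≤ 1 := not_not.1 hc1
  rw [Function.notMem_support] at hgs
  obtain ⟨g', hg', hg'h⟩ := redP_exists hK b h.hom hg1'
  obtain ⟨q', hq', hq'h⟩ := redP_exists hK b hq hq1'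
  obtain ⟨c', hc', hc'h⟩ := redP_exists hK b hc hc1'
  refine ⟨g', q', c', hg', hg'h, ?_, ?_, ?_, ⟨mq, hq'h⟩, ⟨mc, hc'h⟩⟩
  · rintro rfl
    have hpos := formHeight_pos (b := b) h.ne
    have h1 : gs b g = 1 := by
      rw [← WithZero.exp_log hpos.ne', hgs, WithZero.exp_zero]
    obtain ⟨m, -, hm⟩ := formHeight_exists (b := b) h.ne
    have h2 := hg' m
    rw [coeff_zero, map_zero, sub_zero, ← hm, h1] at h2
    exact lt_irrefl _ h2
  · refine RedP.unique (P := aeval F g) (redP_aeval hf.red hg') ?_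
    rw [h.comp]
    exact hg'.mul hq'
  · refine RedP.unique (P := jf F * c) ((redP_jf hf.red).mul hc') ?_
    rw [h.dvd]
    exact hq'.pow E

end Pool.Agent.Helper38.PC
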