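import Pool.Agent.Helper38.PC.FF
import Pool.Agent.Helper30.TKN.TruncN

/-!
# Post-critically finite endomorphisms over function fields: points of unbounded height
-/

set_option autoImplicit false

namespace Pool.Agent.Helper38.PC

open MvPolynomial
open Pool.Agent.Helper16 (Place IsFunctionField)
open Pool.Agent.Helper36 (step iter iter_zero iter_succ iter_succ' iter_add iter_map)
open Pool.Agent.Helper38.TQ
open Pool.Agent.Helper30.TKN

variable {ν : ℕ}

/-- If no cycle avoids the critical set, then outside finitely many places the reduction of a point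
of the orbit with `g ≠ 0` does not come back. -/
theorem same_finite_set {k K : Type} [Field k] [IsAlgClosed k] [Field K] [Algebra k K]
    [Algebra K ℂ] (hK : IsFunctionField k K) {d : ℕ}
    {F : Fin (ν + 1) → MvPolynomial (Fin (ν + 1)) K}
    (hF : IsEndo d fun i => map (algebraMap K ℂ) (F i)) {e E : ℕ}
    {g q c : MvPolynomial (Fin (ν + 1)) K} (h : Data F e E g q c)
    {x : Fin (ν + 1) → K} (hx : x ≠ 0) (hne : NoEtale k d F x) (i : ℕ)
    (hi : eval (iter F x i) g ≠ 0) :
    {b : Place k K | ∃ n, i < n ∧ Same b (iter F x i) (iter F x n)}.Finite := by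
  classical
  obtain ⟨B, hB, hred⟩ := h.red hK
  have hhom : ∀ i, (F i).IsHomogeneous d := fun i => homog_of_endo hF i
  have hne0 : ∀ n, iter F x n ≠ 0 := fun n => iter_ne_zeroK hF hx n
  refine (((good_finite (k := k) hK hF).union hB).union
    ((finsum_log hK _ hi).1.union (nrm_support hK _ (hne0 i)))).subset ?_
  rintro b ⟨n, hin, hsame⟩
  by_contra hb
  rw [Set.mem_union, Set.mem_union, Set.mem_union, not_or, not_or, not_or] at hb
  obtain ⟨⟨hb1, hb2⟩, hb3, hb4⟩ := hb
  obtain ⟨f, hf⟩ : Good d b F := not_not.1 hb1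
  obtain ⟨g', q', c', hg', hdata⟩ := hred b hb2 d f hf
  obtain ⟨z, hz⟩ := exists_red hK b x hx
  have hredn : ∀ l, Red b (iter F x l) (iter f z l) := fun l => hf.iter hhom hz l
  rw [Function.notMem_support] at hb3 hb4
  -- the reduction is not on the hypersurface
  have hzi : eval (iter f z i) g' ≠ 0 := by
    intro h0
    obtain ⟨hz0, u, hu, hux⟩ := hredn i
    have h1 := hg'.eval (u := u • iter F x i) (z := iter f z i) hux
    rw [h0, map_zero, sub_zero, eval_smul_hom h.hom, map_mul, map_pow] at h1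
    have h2 : nrm b (u • iter F x i) = 1 := nrm_red hz0 hux
    rw [nrm_smul] at h2
    have h3 : nrm b (iter F x i) = 1 := by
      rw [← WithZero.exp_log (nrm_ne_zero (b := b) (hne0 i)), hb4, WithZero.exp_zero]
    have h4 : b.val (eval (iter F x i) g) = 1 := by
      rw [← WithZero.exp_log ((map_ne_zero b.val).2 hi), hb3, WithZero.exp_zero]
    rw [h3, mul_one] at h2
    rw [h2, h4, one_pow, one_mul] at h1
    exact lt_irrefl _ h1
  -- the cycle
  have hpeq : PEq (iter f z i) (iter f z n) := by
    by_contra hcon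
    obtain ⟨p, q, hpq⟩ := exists_minor (hredn i) (hredn n) hcon
    have h1 := hsame p q
    rw [hpq] at h1
    exact lt_irrefl _ h1
  have hzn : eval (iter f z n) g' ≠ 0 := by
    obtain ⟨s, hs, hs'⟩ := hpeq
    rw [hs', eval_smul_hom hdata.hom]
    exact mul_ne_zero (pow_ne_zero _ hs) hzi
  obtain ⟨N, rfl⟩ := Nat.exists_eq_add_of_lt hin
  have hdet := hne b f z hf hz i (N + 1) (Nat.succ_pos N) hpeq
  rw [Pool.Agent.Helper38.TQ.det_mult, Finset.prod_eq_zero_iff] at hdet
  obtain ⟨l0, hl0, hl⟩ := hdet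
  rw [Finset.mem_range] at hl0
  have h5 := hdata.noncritical z (i + N + 1) hzn (i + l0) (by omega)
  apply h5
  have e1 : iter f (iter f z i) l0 = iter f z (i + l0) := by
    rw [Nat.add_comm i l0]
    exact (Function.iterate_add_apply _ _ _ _).symm
  rw [← e1]
  exact hl

/-- **Function fields.** The orbit of a point of unbounded height which does not enter the
post-critical hypersurface and does not specialise to a noncritical cycle has no infinite set of
points on a curve. -/
theorem no_curve_pcf {k K : Type} [Field k] [IsAlgClosed k] [CharZero k] [Field K] [Algebra k K]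
    [Algebra K ℂ] (hK : IsFunctionField k K) {d : ℕ}
    {F : Fin (ν + 1) → MvPolynomial (Fin (ν + 1)) K}
    (hF : IsEndo d fun i => map (algebraMap K ℂ) (F i)) {e E : ℕ}
    {g q c : MvPolynomial (Fin (ν + 1)) K} (h : Data F e E g q c)
    {x : Fin (ν + 1) → K} (hx : x ≠ 0) (hunb : ∀ B : ℤ, ∃ n, B < ht k (iter F x n))
    (hg : ∀ n, eval (iter F x n) g ≠ 0) (hne : NoEtale k d F x)
    {U : Ultrafilter ℕ} (hU : Free U) (hcurve : OnCurve U (iter F x)) : False := by
  classical
  have hne0 : ∀ n, iter F x n ≠ 0 := fun n => iter_ne_zeroK hF hx n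
  have hdist := distinct_of_unbounded hK hF hx hunb
  have hht : ∀ B : ℤ, {n | ht k (iter F x n) ≤ B}.Finite := by
    intro B
    obtain ⟨n₁, hn₁⟩ := ht_growth hK hF hx hunb |B|
    refine (Set.finite_lt_nat n₁).subset fun n hn => ?_
    by_contra hcon
    have h1 := hn₁ n (not_lt.1 hcon)
    have h2 : ht k (iter F x n) ≤ B := hn
    have h3 : B ≤ |B| := le_abs_self B
    have h4 : 0 ≤ |B| * (n : ℤ) := mul_nonneg (abs_nonneg B) (by positivity)
    rw [mul_add, mul_one] at h1
    linarith
  obtain ⟨S', Γ, C₁, hS', hΓ, hmain⟩ := trunc_curve hK hne0 hdist hht hU hcurve 1 0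
  set T : Set (Place k K) := ⋃ i ∈ Γ, {b : Place k K | ∃ n, i < n ∧
    Same b (iter F x i) (iter F x n)} with hT
  have hTfin : T.Finite := Set.Finite.biUnion Γ.finite_toSet fun i _ =>
    same_finite_set hK hF h hx hne i (hg i)
  refine hS' ?_
  refine ((hht (T.ncard + C₁)).union (Set.finite_le_nat (Γ.sup id))).subset fun n hn => ?_
  by_cases hnl : n ≤ Γ.sup id
  · exact Or.inr hnl
  left
  obtain ⟨hnΓ, htr⟩ := hmain n hn
  have hsub : {b : Place k K | ∃ i ∈ Γ, Same b (iter F x i) (iter F x n)} ⊆ T := by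
    rintro b ⟨i, hi, hs⟩
    rw [hT, Set.mem_iUnion₂]
    refine ⟨i, hi, n, ?_, hs⟩
    exact lt_of_le_of_lt (Finset.le_sup (f := id) hi) (not_le.1 hnl)
  have h1 := Set.ncard_le_ncard hsub hTfin
  have h2 : (({b : Place k K | ∃ i ∈ Γ, Same b (iter F x i) (iter F x n)}.ncard : ℕ) : ℤ) ≤
      T.ncard := by exact_mod_cast h1
  change ht k (iter F x n) ≤ _
  push_cast at htr
  linarith

end Pool.Agent.Helper38.PC
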