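import Pool.Agent.Helper38.PC.FF3
import Pool.Agent.Helper38.PC.AP
import Pool.Agent.Helper30.RED.Induct
import Pool.Agent.Helper72.PC.Base

/-!
# Post-critically finite endomorphisms of the plane over the complex numbers
-/

set_option autoImplicit false

namespace Pool.Agent.Helper38.PC

open MvPolynomial
open Pool.Agent.Helper16 (Place IsFunctionField)
open Pool.Agent.Helper36 (step iter iter_zero iter_succ iter_succ' iter_add iter_map)
open Pool.Agent.Helper38.TQ
open Pool.Agent.Helper30.TKN
open Pool.Agent.Helper72.PC (PCFdata)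
open Pool.Agent.Helper30.RED (induct closed_of_forms)

/-- The two forms of the data. -/
theorem data_of {k : Type} [Field k] {F : Fin 3 → MvPolynomial (Fin 3) k}
    {g q c : MvPolynomial (Fin 3) k} {D e t E : ℕ} (h : PCFdata F g q c D e t E) :
    Data (ν := 2) F D E g q c :=
  ⟨h.g_hom, h.g_ne, h.comp, h.crit.symm, ⟨e, h.q_hom⟩, ⟨t, h.c_hom⟩⟩

/-- Descent of the data along a map of fields. -/
theorem pcf_of_map {K k : Type} [Field K] [Field k] (φ : K →+* k)
    {F : Fin 3 → MvPolynomial (Fin 3) K} {g q c : MvPolynomial (Fin 3) K} {D e t E : ℕ}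
    (h : PCFdata (fun i => map φ (F i)) (map φ g) (map φ q) (map φ c) D e t E) :
    PCFdata F g q c D e t E := by
  have hinj : Function.Injective (map φ : MvPolynomial (Fin 3) K → MvPolynomial (Fin 3) k) :=
    map_injective φ φ.injective
  refine ⟨?_, ?_, ?_, ?_, ?_, ?_⟩
  · rintro rfl
    exact h.g_ne (by rw [map_zero])
  · exact Pool.Agent.Helper72.PC.base_hom φ h.g_hom
  · exact Pool.Agent.Helper72.PC.base_hom φ h.q_hom
  · exact Pool.Agent.Helper72.PC.base_hom φ h.c_hom
  · apply hinj
    rw [Pool.Agent.Helper72.PC.base_map_comp, h.comp, map_mul]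
  · apply hinj
    rw [map_pow, h.crit, map_mul, Pool.Agent.Helper72.PC.base_map_jf]

/-- Extension of the field. -/
theorem pcf_map {K k : Type} [Field K] [Field k] (φ : K →+* k)
    {F : Fin 3 → MvPolynomial (Fin 3) K} {g q c : MvPolynomial (Fin 3) K} {D e t E : ℕ}
    (h : PCFdata F g q c D e t E) :
    PCFdata (fun i => map φ (F i)) (map φ g) (map φ q) (map φ c) D e t E := by
  have hinj : Function.Injective (map φ : MvPolynomial (Fin 3) K → MvPolynomial (Fin 3) k) :=
    map_injective φ φ.injective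
  refine ⟨?_, h.g_hom.map φ, h.q_hom.map φ, h.c_hom.map φ, ?_, ?_⟩
  · intro h0
    apply h.g_ne
    apply hinj
    rw [h0, map_zero]
  · rw [← Pool.Agent.Helper72.PC.base_map_comp, h.comp, map_mul]
  · rw [← map_pow, h.crit, map_mul, Pool.Agent.Helper72.PC.base_map_jf]

/-- The specialisation of a form is a form. -/
theorem redP_hom {k K : Type} [Field k] [Field K] [Algebra k K] {ν : ℕ} {b : Place k K}
    {P : MvPolynomial (Fin (ν + 1)) K} {p : MvPolynomial (Fin (ν + 1)) k} (h : RedP b P p)
    {m : ℕ} (hP : P.IsHomogeneous m) : p.IsHomogeneous m := by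
  classical
  intro n hn
  by_contra hne
  have h1 : P.coeff n = 0 := by
    by_contra h2
    exact hne (hP h2)
  have h2 := h n
  rw [h1, zero_sub, Valuation.map_neg] at h2
  have h3 : b.val (algebraMap k K (p.coeff n)) = 1 := b.triv _ hn
  rw [h3] at h2
  exact lt_irrefl _ h2

/-- Almost all the specialisations of a post-critically finite map are post-critically finite. -/
theorem pcf_spec {k K : Type} [Field k] [IsAlgClosed k] [Field K] [Algebra k K]
    (hK : IsFunctionField k K) {F : Fin 3 → MvPolynomial (Fin 3) K}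
    {g q c : MvPolynomial (Fin 3) K} {D e t E : ℕ} (h : PCFdata F g q c D e t E) :
    ∃ A : Set (Place k K), A.Finite ∧ ∀ b ∉ A, ∀ (d : ℕ)
      (f : Fin 3 → MvPolynomial (Fin 3) k) (g' q' c' : MvPolynomial (Fin 3) k),
      GoodRed (ν := 2) d b F f → RedP (ν := 2) b g g' → RedP (ν := 2) b q q' →
        RedP (ν := 2) b c c' → PCFdata f g' q' c' D e t E := by
  refine ⟨Function.support (fun b : Place k K => WithZero.log (gs (ν := 2) b g)),
    formHeight_support (ν := 2) hK h.g_ne, ?_⟩
  intro b hb d f g' q' c' hf hg' hq' hc'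
  rw [Function.notMem_support] at hb
  refine ⟨?_, redP_hom (ν := 2) hg' h.g_hom, redP_hom (ν := 2) hq' h.q_hom,
    redP_hom (ν := 2) hc' h.c_hom, ?_, ?_⟩
  · rintro rfl
    have hpos := formHeight_pos (ν := 2) (b := b) h.g_ne
    have h1 : gs (ν := 2) b g = 1 := by
      rw [← WithZero.exp_log hpos.ne', hb, WithZero.exp_zero]
    obtain ⟨m, -, hm⟩ := formHeight_exists (ν := 2) (b := b) h.g_ne
    have h2 := hg' m
    rw [coeff_zero, map_zero, sub_zero, ← hm, h1] at h2
    exact lt_irrefl _ h2
  · refine RedP.unique (ν := 2) (P := aeval F g) (redP_aeval (ν := 2) hf.red hg') ?_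
    rw [h.comp]
    exact RedP.mul (ν := 2) hg' hq'
  · refine RedP.unique (ν := 2) (P := q ^ E) (RedP.pow (ν := 2) hq' E) ?_
    rw [h.crit]
    exact RedP.mul (ν := 2) (redP_jf (ν := 2) hf.red) hc'

/-- **Theorem.** Post-critically finite endomorphisms of the projective plane over the complex
numbers have the Dynamical Mordell-Lang property. -/
theorem pcf_plane {d : ℕ} {f : Fin 3 → MvPolynomial (Fin 3) ℂ} (hf : IsEndo (ν := 2) d f)
    {g q c : MvPolynomial (Fin 3) ℂ} {D e t E : ℕ} (h : PCFdata f g q c D e t E)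
    {a : Fin 3 → ℂ} (ha : a ≠ 0) : Pool.Agent.Helper38.Sym.DMLgen f a := by
  classical
  have hone : ∀ (p : MvPolynomial (Fin 3) ℂ) (m : ℕ), p.IsHomogeneous m →
      FU {n | eval (iter f a n) p = 0} := by
    intro p m hp
    refine induct (ν := 2) (d := d) (N := 3)
      (fun f w => PCFdata f (w 0) (w 1) (w 2) D e t E) FU fu_univ
      (fun S T hS hT => hS.inter hT) ?_ ?_ ?_ f ![g, q, c] a p m hf h ha hp
    · intro k _ _ _ K hK F W _ hcl
      obtain ⟨A, hA, hAb⟩ := pcf_spec (k := k) (K := K) hK (pcf_of_map (algebraMap K ℂ) hcl)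
      refine ⟨A, hA, fun b hb f w hfb hw => ?_⟩
      exact pcf_map (algebraMap k ℂ) (hAb b hb d f (w 0) (w 1) (w 2) hfb (hw 0) (hw 1) (hw 2))
    · intro k _ _ _ K hK F W x p m hF hcl hx hunb hp
      have hD := data_of (pcf_of_map (algebraMap K ℂ) hcl)
      have h1 := dml_plane_unbounded (k := k) (K := K) hK hF hD hx hunb 1 one_ne_zero
      obtain ⟨T, hT⟩ := h1 {map (algebraMap K ℂ) p} (by
        intro g hg
        rw [Set.mem_singleton_iff.1 hg]
        exact ⟨m, hp.map _⟩)
      refine ⟨T, ?_⟩
      rw [← hT]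
      ext n
      simp only [Set.mem_ofPred_eq, Set.mem_singleton_iff, forall_eq]
      rw [Pool.Agent.Helper38.TQK.orbit_complex (ν := 2) hF x 1 n, one_pow, one_smul,
        ← Pool.Agent.Helper38.Sym.map_eval_gen, map_eq_zero_iff _ (algebraMap K ℂ).injective]
    · intro f w a p m hfa hwa haa hpa hf hcl ha hp
      -- the field of the algebraic numbers
      let k : IntermediateField ℚ ℂ := algebraicClosure ℚ ℂ
      have hkalg : Algebra.IsAlgebraic ℚ k := algebraicClosure.isAlgebraic ℚ ℂ
      have hmem : ∀ c : ℂ, IsAlgebraic ℚ c → c ∈ k := fun c hc => mem_algebraicClosure_iff.2 hc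
      have hlift : ∀ P : MvPolynomial (Fin 3) ℂ, (∀ m, IsAlgebraic ℚ (P.coeff m)) →
          ∃ P' : MvPolynomial (Fin 3) k, map (algebraMap k ℂ) P' = P := by
        intro P hP
        exact Pool.Agent.Helper72.PC.base_exists (algebraMap k ℂ) P fun m =>
          ⟨⟨P.coeff m, hmem _ (hP m)⟩, rfl⟩
      choose F hF using fun i => hlift (f i) (hfa i)
      choose W hW using fun j => hlift (w j) (hwa j)
      obtain ⟨P, hP⟩ := hlift p hpa
      let x : Fin 3 → k := fun i => ⟨a i, hmem _ (haa i)⟩
      have hxa : (fun i => (1 : ℂ) * algebraMap k ℂ (x i)) = a := by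
        funext i
        rw [one_mul]
        rfl
      have hx : x ≠ 0 := by
        intro h0
        apply ha
        funext i
        exact congrArg (algebraMap k ℂ) (congrFun h0 i)
      have hFf : (fun i => map (algebraMap k ℂ) (F i)) = f := funext hF
      have hend : Pool.Agent.Helper30.TP.IsEndo d fun i => map (algebraMap k ℂ) (F i) := by
        rw [hFf]
        exact ⟨hf.two_le, hf.hom, hf.nz⟩
      have hPC : PCFdata F (W 0) (W 1) (W 2) D e t E := by
        apply pcf_of_map (algebraMap k ℂ)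
        rw [hFf, hW, hW, hW]
        exact hcl
      have h1 := Pool.Agent.Helper72.PC.base (k := k) hend hPC hx 1 one_ne_zero
      rw [hFf, hxa] at h1
      obtain ⟨T, hT⟩ := h1 {p} (by
        intro g hg
        rw [Set.mem_singleton_iff.1 hg]
        exact ⟨m, hp⟩)
      refine ⟨T, ?_⟩
      rw [← hT]
      ext n
      simp only [Set.mem_ofPred_eq, Set.mem_singleton_iff, forall_eq]
      rfl
  intro S hS
  have h1 := closed_of_forms (ν := 2) FU fu_univ (fun S T hS hT => hS.inter hT) hone hS
  exact h1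

end Pool.Agent.Helper38.PC
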